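import Pool.Agent.H.MP_0d008e_co.Final

/-!
# Dichromatic number and strong complete minors in tournaments

Every tournament `T` with `χ(T) ≥ (1 + o(1)) r` satisfies `sm(T) ≥ r`.
-/

set_option autoImplicit false

open Filter Topology

namespace Pool.Agent.Results.MP_0d008e_co.AsymptoticOne

open Pool.Agent.H.MP_0d008e_co in
/-- `g(r) = (1 + o(1)) r`; more precisely `r + 1 ≤ g(r) ≤ r + 10^6 r / √(log r)` for `r ≥ 2`. The
first two parts record that `χ`, `sm` and `g` are attained. -/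
theorem result :
    (∀ (n : ℕ) (A : Fin n → Fin n → Prop), IsTournament A →
      IsLeast {k | Colorable A k} (dichromatic A) ∧ IsGreatest {r | HasStrongMinor A r} (sm A)) ∧
    (∀ r : ℕ, IsLeast {k : ℕ | ∀ (n : ℕ) (A : Fin n → Fin n → Prop),
      IsTournament A → k ≤ dichromatic A → r ≤ sm A} (g r)) ∧
    (∀ r : ℕ, 2 ≤ r → r + 1 ≤ g r) ∧
    (∀ r : ℕ, 2 ≤ r → (g r : ℝ) ≤ r + 1000000 * r / √(Real.log r)) ∧
    Tendsto (fun r : ℕ => (g r : ℝ) / r) atTop (𝓝 1) := by
  refine ⟨fun n A hT => ⟨⟨colorable_dichromatic hT, fun _ hk => Nat.sInf_le hk⟩, ?_⟩,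
    fun r => isLeast_g r, lower, g_le_real, tendsto_ratio⟩
  constructor
  · refine Nat.sSup_mem ⟨0, ?_⟩ ⟨Fintype.card (Fin n), fun _ hk => hasStrongMinor_le_card hk⟩
    exact ⟨fun i => i.elim0, fun i => i.elim0, fun i => i.elim0, fun i => i.elim0,
      fun i => i.elim0⟩
  · intro r hr
    exact le_sm hr

end Pool.Agent.Results.MP_0d008e_co.AsymptoticOne
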